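import Pool.Agent.H459R3.NS.Evo
import Pool.Agent.W221.NS.Stm

/-!
The equation for the pressure of a smooth periodic solution of the Navier-Stokes equations.
-/

open MeasureTheory Set Metric Filter Topology
open scoped ContDiff

namespace Pool.Agent.W753.MD.DIV

open H459R3.NS W221.NS

theorem sp_comp {T : ℝ} {u : ℝ → V → V}
    (hu : ContDiffOn ℝ ∞ (fun z : ℝ × V => u z.1 z.2) (Ico 0 T ×ˢ univ)) (i : Fin 3) :
    ContDiffOn ℝ ∞ (fun z : ℝ × V => (fun s y => u s y i) z.1 z.2) (Ico 0 T ×ˢ univ) :=
  (contDiffOn_pi.1 hu) i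

theorem pd_sub' {f g : V → ℝ} (hf : SP f) (hg : SP g) (j : Fin 3) (x : V) :
    pd j (fun y => f y - g y) x = pd j f x - pd j g x := by
  unfold pd
  have h : HasFDerivAt (fun y => f y - g y) _ x :=
    (hf.diff x).hasFDerivAt.sub (hg.diff x).hasFDerivAt
  rw [h.fderiv]
  rfl

theorem t_DIV : S_DIV := by
  intro T u p h t ht x
  have ht' : t ∈ Ico 0 T := ⟨ht.1.le, ht.2⟩
  have hu : ∀ i : Fin 3, ContDiffOn ℝ ∞ (fun z : ℝ × V => (fun s y => u s y i) z.1 z.2)
      (Ico 0 T ×ˢ univ) := fun i => sp_comp h.smooth_u i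
  set v : Fin 3 → V → ℝ := fun i y => u t y i with hvdef
  have hv : ∀ i, SP (v i) := fun i =>
    ⟨contDiff_slice (f := fun s y => u s y i) (hu i) ht',
      fun k y => congrFun (h.per_u t ht' k y) i⟩
  have hp : SP (p t) := ⟨contDiff_slice h.smooth_p ht', h.per_p t ht'⟩
  have hdiv : ∀ y, ∑ i, pd i (v i) y = 0 := fun y => h.divfree t ht' y
  -- the time derivative of the components
  have hd : ∀ i, SP (dt (fun s y => u s y i) t) := fun i => by
    refine ⟨contDiff_dt (f := fun s y => u s y i) (hu i) ht, fun k y => ?_⟩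
    unfold dt
    apply Filter.EventuallyEq.deriv_eq
    filter_upwards [Ioo_mem_nhds ht.1 ht.2] with s hs
    exact congrFun (h.per_u s ⟨hs.1.le, hs.2⟩ k y) i
  have hmom : ∀ i, pd i (p t)
      = fun y => (lap (v i) y - conv v i y) - dt (fun s y => u s y i) t y := by
    intro i
    funext y
    have h1 := h.momentum t ht y i
    have h2 : lap (v i) y = ∑ j, pd j (pd j (fun y => u t y i)) y := rfl
    have h3 : conv v i y = ∑ j, u t y j * pd j (fun y => u t y i) y := rfl
    have h4 : dt (fun s y => u s y i) t y = deriv (fun s => u s y i) t := rfl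
    rw [h2, h3, h4]
    linarith
  have h1 : lap (p t) x = ∑ i, (pd i (lap (v i)) x - pd i (conv v i) x
      - pd i (dt (fun s y => u s y i) t) x) := by
    unfold lap
    refine Finset.sum_congr rfl fun i _ => ?_
    rw [hmom i, pd_sub' (f := fun y => lap (v i) y - conv v i y) ?_ (hd i),
      pd_sub' (hv i).lap (sp_conv hv i)]
    · rfl
    · refine ⟨(hv i).lap.smooth.sub (sp_conv hv i).smooth, fun k y => ?_⟩
      simp only [(hv i).lap.per k y, (sp_conv hv i).per k y]
  have h2 : ∑ i, pd i (dt (fun s y => u s y i) t) x = 0 := by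
    have e1 : ∀ i, pd i (dt (fun s y => u s y i) t) x
        = dt (fun s => pd i (fun y => u s y i)) t x := fun i => (dt_pd (hu i) ht i x).symm
    simp_rw [e1]
    have e2 : ∀ i : Fin 3, HasDerivAt (fun s => pd i (fun y => u s y i) x)
        (dt (fun s => pd i (fun y => u s y i)) t x) t := by
      intro i
      have h5 : ContDiffOn ℝ 1 (fun z : ℝ × V => (fun s => pd i (fun y => u s y i)) z.1 z.2)
          (Ioo 0 T ×ˢ univ) := 
        mono_Ioo (n := 1) (f := fun s => pd i (fun y => u s y i))
          (contDiffOn_pd (f := fun s y => u s y i) (hu i) i) (by norm_cast)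
      exact (hasDerivAt_slice h5 ht x).differentiableAt.hasDerivAt
    have e3 := HasDerivAt.fun_sum (u := Finset.univ) fun i _ => e2 i
    have e4 : HasDerivAt (fun s => ∑ i : Fin 3, pd i (fun y => u s y i) x) 0 t := by
      refine (hasDerivAt_const t (0 : ℝ)).congr_of_eventuallyEq ?_
      filter_upwards [Ioo_mem_nhds ht.1 ht.2] with s hs
      exact h.divfree s ⟨hs.1.le, hs.2⟩ x
    exact e3.unique e4
  have h3 : ddq (u t) x = ∑ i, pd i (conv v i) x := by
    unfold ddq
    refine Finset.sum_congr rfl fun i _ => ?_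
    have e1 : (fun y => ∑ j, pd j (fun y => v i y * v j y) y) = conv v i := by
      funext y
      unfold conv
      simp_rw [pd_mul (hv i) (hv _)]
      rw [Finset.sum_add_distrib, ← Finset.mul_sum, hdiv, mul_zero, zero_add]
      exact Finset.sum_congr rfl fun j _ => mul_comm _ _
    rw [← e1, pd_sum (fun j _ => ((hv i).mul (hv j)).pd j) i x]
  rw [h1, h3, Finset.sum_sub_distrib, Finset.sum_sub_distrib, div_lap hv hdiv, h2]
  ring

end Pool.Agent.W753.MD.DIV
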